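import Pool.Agent.U485.SM.Stm2

/-!
Project HT, package PWR (helper2): between consecutive powers.
-/

set_option autoImplicit false

open Finset Filter Topology

namespace Pool.Agent.U2.HT

open Pool.Agent.U485.SM

/-- `((n + 1) ^ e - n ^ e) / n ^ (e - 1)` tends to `e` -/
theorem pow_diff (e : ℕ) (he : 2 ≤ e) :
    Tendsto (fun n : ℕ => (((n : ℝ) + 1) ^ e - (n : ℝ) ^ e) / (n : ℝ) ^ (e - 1)) atTop (𝓝 e) := by
  have h1 : HasDerivAt (fun t : ℝ => (1 + t) ^ e) (e : ℝ) 0 := by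
    have := (((hasDerivAt_id (0 : ℝ)).const_add 1).fun_pow e)
    simpa using this
  rw [hasDerivAt_iff_tendsto_slope] at h1
  have h2 : Tendsto (fun n : ℕ => 1 / (n : ℝ)) atTop (𝓝[≠] 0) := by
    rw [tendsto_nhdsWithin_iff]
    refine ⟨tendsto_one_div_atTop_nhds_zero_nat, ?_⟩
    filter_upwards [eventually_ge_atTop 1] with n hn
    have : (0 : ℝ) < n := by exact_mod_cast hn
    exact (one_div_pos.2 this).ne'
  refine (h1.comp h2).congr' ?_
  filter_upwards [eventually_ge_atTop 1] with n hn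
  have hn0 : (0 : ℝ) < n := by exact_mod_cast hn
  obtain ⟨k, rfl⟩ : ∃ k, e = k + 1 := ⟨e - 1, by omega⟩
  simp only [Function.comp, slope, vsub_eq_sub, smul_eq_mul, sub_zero, add_zero, one_pow,
    Nat.add_sub_cancel]
  have e1 : (1 + 1 / (n : ℝ)) = ((n : ℝ) + 1) / n := by field_simp
  rw [e1, div_pow]
  field_simp
  ring

theorem t_PWR : S_PWR := by
  intro Q hQ H c hc e m he
  obtain ⟨h, hh⟩ : ∃ h : ℕ → ℕ, ∀ n, h n = (n + 1) ^ e - 1 - m - n ^ e := ⟨_, fun _ => rfl⟩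
  have hpd := pow_diff e he
  have hinv : Tendsto (fun n : ℕ => (1 + (m : ℝ)) / (n : ℝ) ^ (e - 1)) atTop (𝓝 0) := by
    have h1 : Tendsto (fun n : ℕ => (n : ℝ) ^ (e - 1)) atTop atTop :=
      (tendsto_pow_atTop (by omega)).comp tendsto_natCast_atTop_atTop
    exact h1.const_div_atTop _
  have hlim := hpd.sub hinv
  rw [sub_zero] at hlim
  have he2 : (2 : ℝ) ≤ e := by exact_mod_cast he
  -- for large n the difference is at least `n ^ (e - 1)`
  have hev : ∀ᶠ n : ℕ in atTop, (n : ℝ) ^ (e - 1) ≤ ((n : ℝ) + 1) ^ e - (n : ℝ) ^ e - (1 + m) ∧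
      ((n : ℝ) + 1) ^ e - (n : ℝ) ^ e - (1 + m) ≤ (e + 1) * (n : ℝ) ^ (e - 1) := by
    filter_upwards [hlim.eventually (lt_mem_nhds (show (1 : ℝ) < e by linarith)),
      hlim.eventually (gt_mem_nhds (show (e : ℝ) < e + 1 by linarith)),
      eventually_ge_atTop 1] with n h1 h2 h3
    have hn0 : (0 : ℝ) < (n : ℝ) ^ (e - 1) := by
      have : (0 : ℝ) < n := by exact_mod_cast h3
      positivity
    rw [← sub_div, lt_div_iff₀ hn0] at h1
    rw [← sub_div, div_lt_iff₀ hn0] at h2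
    constructor <;> linarith
  have hcast : ∀ᶠ n : ℕ in atTop, (h n : ℝ) = ((n : ℝ) + 1) ^ e - (n : ℝ) ^ e - (1 + m) ∧
      n ^ e + 1 + m ≤ (n + 1) ^ e := by
    filter_upwards [hev] with n hn
    have h1 : (n : ℝ) ^ e + 1 + m ≤ ((n : ℝ) + 1) ^ e := by
      have : 0 ≤ (n : ℝ) ^ (e - 1) := by positivity
      linarith [hn.1]
    have h2 : n ^ e + 1 + m ≤ (n + 1) ^ e := by exact_mod_cast h1
    refine ⟨?_, h2⟩
    have h3 : (n + 1) ^ e = h n + (n ^ e + 1 + m) := by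
      rw [hh]
      omega
    have h4 : ((n : ℝ) + 1) ^ e = h n + ((n : ℝ) ^ e + 1 + m) := by exact_mod_cast h3
    rw [h4]
    ring
  have hlim2 : Tendsto (fun n : ℕ => c * ((h n : ℝ) / (n : ℝ) ^ (e - 1)) / (e : ℝ) ^ H.card) atTop
      (𝓝 (c * e / (e : ℝ) ^ H.card)) := by
    refine Tendsto.div_const (Tendsto.const_mul c ?_) _
    refine hlim.congr' ?_
    filter_upwards [hcast] with n hn
    rw [hn.1]
    ring
  have hset : ∀ᶠ n : ℕ in atTop, ({p : ℕ | n ^ e < p ∧ p + m < (n + 1) ^ e ∧ ∀ h ∈ H, p + h ∈ Q}.ncard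
      : ℝ) = num Q H (n ^ e) (n ^ e + h n) := by
    filter_upwards [hcast] with n hn
    unfold num
    congr 2
    ext p
    simp only [Set.mem_ofPred_eq]
    have := hh n
    constructor
    · rintro ⟨h1, h2, h3⟩
      exact ⟨h1, by omega, h3⟩
    · rintro ⟨h1, h2, h3⟩
      exact ⟨h1, by omega, h3⟩
  -- the error
  have herr : Tendsto (fun n : ℕ => ({p : ℕ | n ^ e < p ∧ p + m < (n + 1) ^ e ∧
      ∀ h ∈ H, p + h ∈ Q}.ncard : ℝ) * (Real.log n) ^ H.card / (n : ℝ) ^ (e - 1) -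
      c * ((h n : ℝ) / (n : ℝ) ^ (e - 1)) / (e : ℝ) ^ H.card) atTop (𝓝 0) := by
    rw [Metric.tendsto_nhds]
    intro ε hε
    have hL := (tendsto_pow_atTop (α := ℕ) (show e ≠ 0 by omega)).eventually
      (hQ H c hc (ε / (2 * (e + 1))) (1 / 2) (by positivity) (by norm_num))
    filter_upwards [hL, hcast, hset, hev, eventually_ge_atTop (e + 1)] with n h1 h2 h3 h4 h5
    have hn1 : 1 ≤ n := by omega
    have hn0 : (0 : ℝ) < n := by exact_mod_cast hn1
    have hn1r : (1 : ℝ) ≤ n := by exact_mod_cast hn1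
    have hp0 : (0 : ℝ) < (n : ℝ) ^ (e - 1) := by positivity
    have a1 : ((n ^ e : ℕ) : ℝ) ^ (1 / 2 : ℝ) ≤ h n := by
      rw [← Real.sqrt_eq_rpow, h2.1]
      refine le_trans ?_ h4.1
      rw [Real.sqrt_le_left hp0.le]
      push_cast
      rw [← pow_mul]
      exact pow_le_pow_right₀ hn1r (by omega)
    have a2 : h n ≤ n ^ e := by
      have b1 : (h n : ℝ) ≤ ((n ^ e : ℕ) : ℝ) := by
        rw [h2.1]
        refine h4.2.trans ?_
        have b2 : ((e : ℝ) + 1) ≤ n := by exact_mod_cast h5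
        calc ((e : ℝ) + 1) * (n : ℝ) ^ (e - 1) ≤ n * (n : ℝ) ^ (e - 1) := by gcongr
          _ = (n : ℝ) ^ (e - 1 + 1) := by rw [pow_succ]; ring
          _ = ((n ^ e : ℕ) : ℝ) := by
              push_cast
              congr 1
              omega
      exact_mod_cast b1
    have a3 := h1 (h n) a1 a2
    rw [h3, Real.dist_0_eq_abs]
    obtain ⟨M, hM⟩ : ∃ M : ℝ, M = num Q H (n ^ e) (n ^ e + h n) := ⟨_, rfl⟩
    obtain ⟨X, hX⟩ : ∃ X : ℝ, X = (h n : ℝ) := ⟨_, rfl⟩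
    rw [← hM, ← hX] at a3
    rw [← hM, ← hX]
    have hlog : Real.log ((n ^ e : ℕ) : ℝ) = e * Real.log n := by
      push_cast
      rw [Real.log_pow]
    rw [hlog, mul_pow] at a3
    have hek : (1 : ℝ) ≤ (e : ℝ) ^ H.card := one_le_pow₀ (by linarith)
    have hek0 : (0 : ℝ) < (e : ℝ) ^ H.card := by linarith
    have hX0 : 0 ≤ X := by rw [hX]; positivity
    have hX1 : X ≤ (e + 1) * (n : ℝ) ^ (e - 1) := by rw [hX, h2.1]; exact h4.2
    have e1 : M * Real.log n ^ H.card / (n : ℝ) ^ (e - 1) - c * (X / (n : ℝ) ^ (e - 1)) /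
        (e : ℝ) ^ H.card = (M * ((e : ℝ) ^ H.card * Real.log n ^ H.card) - c * X) /
          ((e : ℝ) ^ H.card * (n : ℝ) ^ (e - 1)) := by
      field_simp
    rw [e1, abs_div, abs_of_pos (show 0 < (e : ℝ) ^ H.card * (n : ℝ) ^ (e - 1) by positivity),
      div_lt_iff₀ (by positivity)]
    calc |M * ((e : ℝ) ^ H.card * Real.log n ^ H.card) - c * X| ≤ ε / (2 * (e + 1)) * X := a3
      _ ≤ ε / (2 * (e + 1)) * ((e + 1) * (n : ℝ) ^ (e - 1)) := by gcongr
      _ = ε / 2 * (1 * (n : ℝ) ^ (e - 1)) := by field_simp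
      _ < ε * (1 * (n : ℝ) ^ (e - 1)) := by
          have : ε / 2 < ε := by linarith
          gcongr
      _ ≤ ε * ((e : ℝ) ^ H.card * (n : ℝ) ^ (e - 1)) := by gcongr
  have := herr.add hlim2
  rw [zero_add] at this
  refine this.congr ?_
  intro n
  ring

end Pool.Agent.U2.HT
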